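import Pool.Agent.H749R6.IX.Main

/-! Small gaps after the primes whose index is a multiple of `n`.  Write `p_i` for the `i`-th prime,
that is `Nat.nth Nat.Prime (i - 1)`.  For all `n ≥ 1`, `j` and `lam > 0` there is `c > 0` such that for
all large `K` at least `c K` of the `k ≤ K` satisfy `p_{kn+j} - p_{kn} ≤ lam log p_{kn}`. -/

set_option autoImplicit false

namespace Pool.Agent.Results.MP_be93de_nt.SmallGapsAtMultipleIndices

theorem result : ∀ (n j : ℕ) (lam : ℝ), 0 < n → 0 < lam →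
    ∃ c : ℝ, 0 < c ∧ ∃ K₀ : ℕ, ∀ K : ℕ, K₀ ≤ K →
      c * K ≤ ({k : ℕ | k ∈ Finset.Icc 1 K ∧
        (Nat.nth Nat.Prime (k * n - 1 + j) : ℝ) - Nat.nth Nat.Prime (k * n - 1) ≤
          lam * Real.log (Nat.nth Nat.Prime (k * n - 1))}.ncard : ℝ) :=
  fun n j lam hn hlam => Pool.Agent.H749R6.IX.main n j lam hn hlam

end Pool.Agent.Results.MP_be93de_nt.SmallGapsAtMultipleIndices
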